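import Mathlib
import Pool.Agent.Lib.MP_c52340_c5.Y5

set_option autoImplicit false

namespace Pool.Agent.Results.MP_c52340_nt.DensityOne

open Pool.Agent.C52

private theorem inL_neg (n : ℤ) (h : InL n) : InL (-n) := by
  obtain ⟨r, d, hd, hn⟩ := h
  refine ⟨r, fun i => -d i, fun i => ?_, ?_⟩
  · rcases hd i with h | h | h
    · right; right; simp [h]
    · right; left; simp [h]
    · left; simp [h]
  · rw [hn, ← Finset.sum_neg_distrib]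
    exact Finset.sum_congr rfl (fun i _ => by ring)

/-- There is an absolute constant `C` such that the odd integers `k`, `|k| ≥ 3`, without a multiplier
`m < |k| ^ C` form a set of density zero. -/
theorem result :
    ∃ C : ℕ, Filter.Tendsto (fun X : ℕ =>
      (({k : ℤ | Odd k ∧ 3 ≤ |k| ∧ |k| ≤ (X : ℤ) ∧ ¬ ∃ m : ℤ, 0 < m ∧ m < |k| ^ C ∧
        (∃ n : ℕ, ∃ d : ℕ → ℤ, (∀ i, d i = -1 ∨ d i = 0 ∨ d i = 1) ∧
            m = ∑ i ∈ Finset.range n, d i * 4 ^ i) ∧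
        (∃ n : ℕ, ∃ d : ℕ → ℤ, (∀ i, d i = -1 ∨ d i = 0 ∨ d i = 1) ∧
            k * m = ∑ i ∈ Finset.range n, d i * 4 ^ i)}.ncard : ℕ) : ℝ) / X)
      Filter.atTop (nhds 0) := by
  obtain ⟨C, hC⟩ := RY5.Y5
  refine ⟨C, ?_⟩
  have key : ∀ ε : ℝ, 0 < ε → ∃ X₀ : ℕ, ∀ X : ℕ, X₀ ≤ X →
      (({k : ℤ | Odd k ∧ 3 ≤ |k| ∧ |k| ≤ (X : ℤ) ∧ ¬ ∃ m : ℤ, 0 < m ∧ m < |k| ^ C ∧
        (∃ n : ℕ, ∃ d : ℕ → ℤ, (∀ i, d i = -1 ∨ d i = 0 ∨ d i = 1) ∧
            m = ∑ i ∈ Finset.range n, d i * 4 ^ i) ∧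
        (∃ n : ℕ, ∃ d : ℕ → ℤ, (∀ i, d i = -1 ∨ d i = 0 ∨ d i = 1) ∧
            k * m = ∑ i ∈ Finset.range n, d i * 4 ^ i)}.ncard : ℕ) : ℝ) ≤ ε * X := by
    intro ε hε
    obtain ⟨X₀, h⟩ := hC (ε / 2) (by positivity)
    refine ⟨X₀, fun X hX => ?_⟩
    classical
    have hX2 := h X hX
    set A : Finset ℤ := ((Finset.Icc (1 : ℤ) X).filter
        (fun k => Odd k ∧ ¬ ∃ m : ℤ, 0 < m ∧ m < k ^ C ∧ InL m ∧ InL (k * m))) with hA
    have hsub : {k : ℤ | Odd k ∧ 3 ≤ |k| ∧ |k| ≤ (X : ℤ) ∧ ¬ ∃ m : ℤ, 0 < m ∧ m < |k| ^ C ∧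
          (∃ n : ℕ, ∃ d : ℕ → ℤ, (∀ i, d i = -1 ∨ d i = 0 ∨ d i = 1) ∧
              m = ∑ i ∈ Finset.range n, d i * 4 ^ i) ∧
          (∃ n : ℕ, ∃ d : ℕ → ℤ, (∀ i, d i = -1 ∨ d i = 0 ∨ d i = 1) ∧
              k * m = ∑ i ∈ Finset.range n, d i * 4 ^ i)} ⊆
        ((A ∪ A.image (fun k => -k) : Finset ℤ) : Set ℤ) := by
      rintro k ⟨hk, hk3, hkX, hno⟩
      rw [Finset.coe_union, Finset.coe_image]
      rcases le_total 0 k with h0 | h0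
      · left
        rw [abs_of_nonneg h0] at hk3 hkX hno
        rw [Finset.mem_coe, hA, Finset.mem_filter, Finset.mem_Icc]
        refine ⟨⟨by omega, hkX⟩, hk, ?_⟩
        rintro ⟨m, hm0, hmC, hm1, hm2⟩
        exact hno ⟨m, hm0, hmC, hm1, hm2⟩
      · right
        rw [abs_of_nonpos h0] at hk3 hkX hno
        refine ⟨-k, ?_, by simp⟩
        rw [Finset.mem_coe, hA, Finset.mem_filter, Finset.mem_Icc]
        refine ⟨⟨by omega, hkX⟩, hk.neg, ?_⟩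
        rintro ⟨m, hm0, hmC, hm1, hm2⟩
        refine hno ⟨m, hm0, hmC, hm1, ?_⟩
        have h3 := inL_neg _ hm2
        rw [show -(-k * m) = k * m by ring] at h3
        exact h3
    have hcard : ({k : ℤ | Odd k ∧ 3 ≤ |k| ∧ |k| ≤ (X : ℤ) ∧ ¬ ∃ m : ℤ, 0 < m ∧ m < |k| ^ C ∧
          (∃ n : ℕ, ∃ d : ℕ → ℤ, (∀ i, d i = -1 ∨ d i = 0 ∨ d i = 1) ∧
              m = ∑ i ∈ Finset.range n, d i * 4 ^ i) ∧
          (∃ n : ℕ, ∃ d : ℕ → ℤ, (∀ i, d i = -1 ∨ d i = 0 ∨ d i = 1) ∧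
              k * m = ∑ i ∈ Finset.range n, d i * 4 ^ i)}.ncard) ≤ 2 * A.card := by
      refine (Set.ncard_le_ncard hsub (Finset.finite_toSet _)).trans ?_
      rw [Set.ncard_coe_finset]
      refine (Finset.card_union_le _ _).trans ?_
      have := Finset.card_image_le (s := A) (f := fun k => -k)
      omega
    have h4 : (A.card : ℝ) ≤ ε / 2 * X := by
      convert hX2
    calc ((_ : ℕ) : ℝ) ≤ ((2 * A.card : ℕ) : ℝ) := by exact_mod_cast hcard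
      _ = 2 * (A.card : ℝ) := by push_cast; ring
      _ ≤ ε * X := by linarith
  rw [Metric.tendsto_atTop]
  intro ε hε
  obtain ⟨X₀, h⟩ := key (ε / 2) (by positivity)
  refine ⟨max X₀ 1, fun X hX => ?_⟩
  have hX1 : (1 : ℝ) ≤ X := by exact_mod_cast (le_max_right X₀ 1).trans hX
  have hX2 := h X ((le_max_left _ _).trans hX)
  rw [Real.dist_eq, sub_zero, abs_of_nonneg (by positivity), div_lt_iff₀ (by linarith)]
  have : 0 < ε * X := by positivity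
  linarith

end Pool.Agent.Results.MP_c52340_nt.DensityOne
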