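import Mathlib
import Pool.Agent.Lib.MP_c52340_nt.Defs
import Pool.Agent.Lib.MP_c52340_nt.Family

namespace Pool.Agent.Results.MP_c52340_nt.ExactLeastFamily

open Pool.Agent.Lib.MP_c52340_nt

/-- For every `s ≥ 3` the least multiplier of the odd integer `k = 2 * 4^s + 5` is
`4^(s-1) * (1 + 4 + ... + 4^(s-1)) - 4^(s-2) + 1` (about `k^2 / 48`; for `s = 3` this is
the pair `k = 133`, `m = 333`). -/
theorem result :
    ∀ s : ℕ, 3 ≤ s →
      IsLeast {m : ℤ | IsMultiplier (2 * 4 ^ s + 5) m}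
        (4 ^ (s - 1) * ∑ i ∈ Finset.range s, (4 : ℤ) ^ i - 4 ^ (s - 2) + 1) :=
  isLeast

end Pool.Agent.Results.MP_c52340_nt.ExactLeastFamily
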