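import Mathlib
import Pool.Agent.Lib.MP_c52340_nt.Defs
import Pool.Agent.Lib.MP_c52340_nt.Bound

namespace Pool.Agent.Results.MP_c52340_nt.ExplicitBound

open Pool.Agent.Lib.MP_c52340_nt

/-- Every odd integer `k` with `|k| ≥ 3` has a multiplier `m < 16 ^ √|k|`. -/
theorem result :
    ∀ k : ℤ, Odd k → 3 ≤ |k| →
      ∃ m : ℤ, IsMultiplier k m ∧ (m : ℝ) < (16 : ℝ) ^ Real.sqrt |(k : ℝ)| :=
  bound_real

end Pool.Agent.Results.MP_c52340_nt.ExplicitBound
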