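import Mathlib
import Pool.Agent.Lib.MP_c52340_nt.TokM2
import Pool.Agent.Lib.MP_c52340_nt.LawM
import Pool.Agent.Lib.MP_c52340_nt.NearG
import Pool.Agent.Lib.MP_c52340_nt.N2F
import Pool.Agent.Lib.MP_c52340_nt.N2G4
import Pool.Agent.Lib.MP_c52340_nt.N2G3

/-!
MP_c52340_nt: every odd `k` has a multiplier of size `exp (C (log |k|) ^ 2)`, and of size
`|k| ^ (C log log |k|)` if `|k|` is not close to a number `2 * 4 ^ l`.
-/

set_option autoImplicit false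

namespace Pool.Agent.Results.MP_c52340_nt.QuasiPolynomial

open Pool.Agent.Lib.MP_c52340_nt

theorem result :
    ∃ C : ℝ, 0 < C ∧ ∀ (k : ℤ) (G : ℝ), Odd k → 3 ≤ |k| → 1 ≤ G →
      (∀ l : ℕ, |(k : ℝ)| * Real.exp (-G) ≤ abs (|(k : ℝ)| - 2 * 4 ^ l)) →
      ∃ m : ℤ, IsMultiplier k m ∧
        (m : ℝ) ≤ Real.exp (C * Real.log |(k : ℝ)| *
          min (Real.log |(k : ℝ)|) (G * Real.log (Real.log |(k : ℝ)|))) :=
  Tok.main_min 10 (by norm_num) 3 (33 / 16) (by norm_num)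
    (fun _ _ hk hl h1 h2 => C52M.good_M hk (by omega) h1 h2)
    (fun _ _ hk hl h1 h2 => Near.good_P hk hl h1 h2)
    (fun k l hk hl h => Near2.near2 Near2.rowG3 Near2.rowG4 k l hk hl h)

end Pool.Agent.Results.MP_c52340_nt.QuasiPolynomial
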